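import Pool.Agent.Helper42.KS.Goals

set_option autoImplicit false

namespace Pool.Agent.Helper42.KS.PkGB

/-- the weight of a prime -/
noncomputable def w (C ε : ℝ) (p : ℕ) : ℝ := max 1 (C * (p : ℝ) ^ (-ε))

lemma one_le_w (C ε : ℝ) (p : ℕ) : 1 ≤ w C ε p := le_max_left _ _

lemma GG_one (k : ℕ) (a b : ℤ) (hk : 1 ≤ k) : GG k a 1 b = 1 := by
  unfold GG ee
  have h0 : (0 : ℂ) ^ k = 0 := zero_pow (by omega)
  simp [h0]

lemma prod_w_le (C ε : ℝ) (hC : 1 ≤ C) (hε : 0 < ε) (S : Finset ℕ) (hS : ∀ p ∈ S, 1 ≤ p) :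
    ∏ p ∈ S, w C ε p ≤ C ^ (⌈C ^ (1 / ε)⌉₊) := by
  set T := ⌈C ^ (1 / ε)⌉₊ with hT
  have h1 : ∀ p ∈ S, w C ε p ≤ if p < T then C else 1 := by
    intro p hp
    have hp1 : (1 : ℝ) ≤ (p : ℝ) := by exact_mod_cast hS p hp
    have hp0 : (0 : ℝ) < (p : ℝ) := by linarith
    split_ifs with h
    · apply max_le hC
      have : (p : ℝ) ^ (-ε) ≤ 1 := Real.rpow_le_one_of_one_le_of_nonpos hp1 (by linarith)
      nlinarith
    · apply max_le le_rfl
      have hTp : C ^ (1 / ε) ≤ (p : ℝ) := by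
        have h2 : C ^ (1 / ε) ≤ (T : ℝ) := Nat.le_ceil _
        have h3 : (T : ℝ) ≤ (p : ℝ) := by exact_mod_cast (not_lt.mp h)
        linarith
      have h4 : C ≤ (p : ℝ) ^ ε := by
        have h5 : (C ^ (1 / ε)) ^ ε ≤ (p : ℝ) ^ ε :=
          Real.rpow_le_rpow (Real.rpow_nonneg (by linarith) _) hTp hε.le
        rwa [← Real.rpow_mul (by linarith), one_div, inv_mul_cancel₀ hε.ne', Real.rpow_one] at h5
      rw [Real.rpow_neg hp0.le]
      have h6 : 0 < (p : ℝ) ^ ε := Real.rpow_pos_of_pos hp0 _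
      rw [← div_eq_mul_inv, div_le_one h6]
      exact h4
  calc ∏ p ∈ S, w C ε p ≤ ∏ p ∈ S, (if p < T then C else 1) := by
        apply Finset.prod_le_prod
        · intro i _
          exact le_trans zero_le_one (one_le_w C ε i)
        · exact h1
    _ = ∏ p ∈ S.filter (· < T), C := by
        rw [Finset.prod_filter]
    _ = C ^ (S.filter (· < T)).card := by simp
    _ ≤ C ^ T := by
        apply pow_le_pow_right₀ hC
        calc (S.filter (· < T)).card ≤ (Finset.range T).card := by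
              apply Finset.card_le_card
              intro p hp
              simp only [Finset.mem_filter] at hp
              exact Finset.mem_range.mpr hp.2
          _ = T := Finset.card_range T

lemma main (k : ℕ) (ε C : ℝ) (hk : 3 ≤ k) (hε : 0 < ε) (hC : 1 ≤ C)
    (hpp : ∀ (p j : ℕ) (a b : ℤ), p.Prime → ¬ (p : ℤ) ∣ a →
      ‖GG k a (p ^ j) b‖ ≤ C * ((p : ℝ) ^ j) ^ (-(1 / (k : ℝ))))
    (hGM : G_GM) (q : ℕ) : 1 ≤ q → ∀ a b : ℤ, IsCoprime a (q : ℤ) →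
      ‖GG k a q b‖ ≤ (∏ p ∈ q.primeFactors, w C ε p) * (q : ℝ) ^ (-(1 / (k : ℝ)) + ε) := by
  induction q using Nat.recOnPosPrimePosCoprime with
  | prime_pow p j hp hj =>
    intro _ a b hab
    have hpa : ¬ (p : ℤ) ∣ a := by
      intro hd
      have h1 : (p : ℤ) ∣ ((p ^ j : ℕ) : ℤ) := by
        push_cast
        exact dvd_pow_self _ (by omega)
      have h2 : IsUnit (p : ℤ) := hab.isUnit_of_dvd' hd h1
      have h3 := Int.isUnit_iff.mp h2
      have h4 := hp.two_le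
      omega
    have h := hpp p j a b hp hpa
    have hp1 : (1 : ℝ) ≤ (p : ℝ) := by exact_mod_cast hp.one_lt.le
    have hp0 : (0 : ℝ) < (p : ℝ) := by linarith
    have hpj1 : (1 : ℝ) ≤ (p : ℝ) ^ j := one_le_pow₀ hp1
    have hpj : (0 : ℝ) < (p : ℝ) ^ j := by linarith
    rw [Nat.primeFactors_prime_pow (by omega) hp, Finset.prod_singleton]
    push_cast
    refine h.trans ?_
    rw [Real.rpow_add hpj]
    have hc : C ≤ w C ε p * ((p : ℝ) ^ j) ^ ε := by
      have h1 : C * (p : ℝ) ^ (-ε) ≤ w C ε p := le_max_right _ _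
      have h2 : (p : ℝ) ^ ε ≤ ((p : ℝ) ^ j) ^ ε := by
        apply Real.rpow_le_rpow hp0.le _ hε.le
        exact le_self_pow₀ hp1 (by omega)
      have h3 : C = C * (p : ℝ) ^ (-ε) * (p : ℝ) ^ ε := by
        rw [mul_assoc, ← Real.rpow_add hp0]
        simp
      have h4 : 0 < (p : ℝ) ^ ε := Real.rpow_pos_of_pos hp0 _
      calc C = C * (p : ℝ) ^ (-ε) * (p : ℝ) ^ ε := h3
        _ ≤ w C ε p * (p : ℝ) ^ ε := mul_le_mul_of_nonneg_right h1 h4.le
        _ ≤ w C ε p * ((p : ℝ) ^ j) ^ ε :=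
            mul_le_mul_of_nonneg_left h2 (le_trans zero_le_one (one_le_w C ε p))
    have h5 : 0 < ((p : ℝ) ^ j) ^ (-(1 / (k : ℝ))) := Real.rpow_pos_of_pos hpj _
    calc C * ((p : ℝ) ^ j) ^ (-(1 / (k : ℝ)))
        ≤ (w C ε p * ((p : ℝ) ^ j) ^ ε) * ((p : ℝ) ^ j) ^ (-(1 / (k : ℝ))) :=
          mul_le_mul_of_nonneg_right hc h5.le
      _ = w C ε p * (((p : ℝ) ^ j) ^ (-(1 / (k : ℝ))) * ((p : ℝ) ^ j) ^ ε) := by ring
  | zero => intro h; omega
  | one =>
    intro _ a b _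
    rw [GG_one k a b (by omega)]
    simp
  | coprime q₁ q₂ h1 h2 hc ih1 ih2 =>
    intro _ a b hab
    have hq1 : 1 ≤ q₁ := by omega
    have hq2 : 1 ≤ q₂ := by omega
    have hab1 : IsCoprime a (q₁ : ℤ) := by
      have : IsCoprime a ((q₁ : ℤ) * (q₂ : ℤ)) := by simpa using hab
      exact IsCoprime.of_mul_right_left this
    have hab2 : IsCoprime a (q₂ : ℤ) := by
      have : IsCoprime a ((q₁ : ℤ) * (q₂ : ℤ)) := by simpa using hab
      exact IsCoprime.of_mul_right_right this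
    have hcc : IsCoprime (q₁ : ℤ) (q₂ : ℤ) := Nat.isCoprime_iff_coprime.mpr hc
    have e1 := ih1 hq1 (a * (q₂ : ℤ) ^ (k - 1)) b
      (IsCoprime.mul_left hab1 (IsCoprime.pow_left hcc.symm))
    have e2 := ih2 hq2 (a * (q₁ : ℤ) ^ (k - 1)) b
      (IsCoprime.mul_left hab2 (IsCoprime.pow_left hcc))
    rw [hGM k q₁ q₂ a b (by omega) hq1 hq2 hc, norm_mul]
    have hw : ∏ p ∈ (q₁ * q₂).primeFactors, w C ε p =
        (∏ p ∈ q₁.primeFactors, w C ε p) * ∏ p ∈ q₂.primeFactors, w C ε p := by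
      rw [hc.primeFactors_mul, Finset.prod_union hc.disjoint_primeFactors]
    rw [hw]
    push_cast
    rw [Real.mul_rpow (by positivity) (by positivity)]
    have hw1 : 0 ≤ ∏ p ∈ q₁.primeFactors, w C ε p :=
      Finset.prod_nonneg fun i _ => le_trans zero_le_one (one_le_w C ε i)
    calc ‖GG k (a * (q₂ : ℤ) ^ (k - 1)) q₁ b‖ * ‖GG k (a * (q₁ : ℤ) ^ (k - 1)) q₂ b‖
        ≤ ((∏ p ∈ q₁.primeFactors, w C ε p) * (q₁ : ℝ) ^ (-(1 / (k : ℝ)) + ε)) *
          ((∏ p ∈ q₂.primeFactors, w C ε p) * (q₂ : ℝ) ^ (-(1 / (k : ℝ)) + ε)) := by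
          apply mul_le_mul e1 e2 (norm_nonneg _)
          exact mul_nonneg hw1 (Real.rpow_nonneg (by positivity) _)
      _ = _ := by ring

theorem thm : G_GPP → G_GM → G_GB := by
  intro hGPP hGM k ε hk hε
  obtain ⟨C, hC, hpp⟩ := hGPP k hk
  refine ⟨C ^ (⌈C ^ (1 / ε)⌉₊), ?_⟩
  intro q a b hq hab
  have h := main k ε C hk hε hC hpp hGM q hq a b hab
  refine h.trans ?_
  apply mul_le_mul_of_nonneg_right _ (Real.rpow_nonneg (by positivity) _)
  apply prod_w_le C ε hC hε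
  intro p hp
  exact (Nat.prime_of_mem_primeFactors hp).one_lt.le

end Pool.Agent.Helper42.KS.PkGB
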