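import Pool.Agent.Helper89.KS.Goals
import Pool.Agent.Helper42.GP.GAM
import Pool.Agent.Helper83.GP.Cone

/-!
# Packet KS-LWB: the exponential model is the cone with the weight `exp (-max)`
-/

namespace Pool.Agent.Helper86.KS

open Finset MeasureTheory Pool.Agent.Helper89.GP Pool.Agent.Helper89.KS
open Pool.Agent.Helper83.GP
open scoped ENNReal

variable {n : ℕ}

theorem ps_meas : Measurable (ps : (Fin n → ℝ) → (Fin n → ℝ)) := by
  apply measurable_pi_lambda
  intro i
  unfold ps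
  apply Finset.measurable_sum
  intro j _
  split_ifs
  · exact measurable_pi_apply j
  · exact measurable_const

theorem cf_meas (σ : Equiv.Perm (Fin n)) : Measurable (cf σ) := by
  apply measurable_pi_lambda
  intro a
  exact (measurable_pi_apply (σ a)).comp ps_meas

theorem ch_pre (σ : Equiv.Perm (Fin n)) (e : (Fin n → ℝ) ≃ᵐ (Fin n → ℝ))
    (he : ∀ x a, e x a = x (σ a)) : e ⁻¹' (Ch σ) = Ch (1 : Equiv.Perm (Fin n)) := by
  ext x
  simp only [Set.mem_preimage, Ch, Set.mem_ofPred_eq, he, Equiv.Perm.coe_one, id_eq]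
  constructor
  · rintro ⟨h1, h2⟩
    refine ⟨fun a => ?_, fun a b hab => ?_⟩
    · have := h1 (σ.symm a)
      rwa [Equiv.apply_symm_apply] at this
    · have := h2 (σ.symm a) (σ.symm b)
      rw [Equiv.apply_symm_apply, Equiv.apply_symm_apply] at this
      exact this hab
  · rintro ⟨h1, h2⟩
    exact ⟨fun a => h1 _, fun a b hab => h2 _ _ hab⟩

theorem lwa_perm (h : LwaStmt) (σ : Equiv.Perm (Fin n)) (Φ : (Fin n → ℝ) → ℝ≥0∞)
    (hΦ : Measurable Φ) : ∫⁻ e, Φ (cf σ e) ∂En n =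
      ∫⁻ x in Ch σ, Φ x * ENNReal.ofReal (Real.exp (-⨆ a, x a)) := by
  obtain ⟨e, hmp, he⟩ := Pool.Agent.Helper42.GP.gam_mp σ
  have hsup : ∀ x : Fin n → ℝ, (⨆ a, e x a) = ⨆ a, x a := by
    intro x
    simp_rw [he]
    exact Equiv.iSup_comp (g := fun a => x a) σ
  rw [← hmp.setLIntegral_comp_preimage_emb e.measurableEmbedding, ch_pre σ e he]
  have h1 := h n (fun x => Φ (e x)) (hΦ.comp e.measurable)
  simp_rw [hsup]
  rw [h1]
  apply lintegral_congr
  intro y
  congr 1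
  funext a
  exact (he (ps y) a).symm

/-- **LWB** -/
theorem lwb (h1 : LwaStmt) : LwbStmt := by
  classical
  intro n R Φ hΦ _
  have hC : (Cn R : Set (Fin n → ℝ)) =ᵐ[volume] (⋃ σ ∈ LX R, Ch σ : Set (Fin n → ℝ)) := by
    filter_upwards [inj_ae] with x hx
    apply propext
    constructor
    · rintro ⟨h1, h2⟩
      obtain ⟨σ, hσ⟩ := exists_Ch x h1 hx
      show x ∈ (⋃ σ ∈ LX R, Ch σ : Set (Fin n → ℝ))
      rw [Set.mem_iUnion₂]
      exact ⟨σ, mem_LX.2 fun a b hab => (Ch_lt_iff hσ).2 (h2 a b hab), hσ⟩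
    · intro h
      have h' : x ∈ (⋃ σ ∈ LX R, Ch σ : Set (Fin n → ℝ)) := h
      rw [Set.mem_iUnion₂] at h'
      obtain ⟨σ, hσ, h2⟩ := h'
      exact ⟨h2.1, fun a b hab => h2.2 a b (mem_LX.1 hσ a b hab)⟩
  rw [setLIntegral_congr hC, lintegral_biUnion_finset₀]
  · unfold mu
    rw [lintegral_smul_measure, lintegral_finset_sum_measure, smul_eq_mul]
    congr 1
    apply sum_congr rfl
    intro σ _
    rw [lintegral_map hΦ (cf_meas σ)]
    exact lwa_perm h1 σ Φ hΦ
  · intro σ _ τ _ hne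
    apply Disjoint.aedisjoint
    rw [Set.disjoint_left]
    intro x hx hx'
    exact hne (Ch_unique hx hx')
  · intro σ _
    exact (Ch_meas σ).nullMeasurableSet

end Pool.Agent.Helper86.KS
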